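import Pool.Agent.Q320.WC.Main

/-!
# Weight symbols of normal weighted composition operators

If the composition symbol `φ(z) = (az+b)/(cz+d)` is a linear fractional self-map of the disc and
the bounded operator `W f = ψ · (f ∘ φ)` on the Hardy space `H²` is normal, then
`ψ(z) = κ / (cz+d)` on the disc for a constant `κ`; in particular `ψ` is linear fractional.
-/

set_option autoImplicit false

namespace Pool.Agent.Results.MP_9100ee_an.WeightSymbols

open Pool.Agent.Q320.WC

/-- `H2` is the space `ℓ²` of Taylor coefficients and `ev f z = ∑ f n z^n`.  `IsStarNormal W`: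
`star W * W = W * star W`, where `star W` is the adjoint of `W`. -/
theorem result {a b c d : ℂ} (hdet : a * d - b * c ≠ 0)
    (hden : ∀ z : ℂ, ‖z‖ < 1 → c * z + d ≠ 0)
    (hself : ∀ z : ℂ, ‖z‖ < 1 → ‖(a * z + b) / (c * z + d)‖ < 1)
    (ψ : ℂ → ℂ) (W : H2 →L[ℂ] H2)
    (hW : ∀ (f : H2) (z : ℂ), ‖z‖ < 1 → ev (W f) z = ψ z * ev f ((a * z + b) / (c * z + d)))
    (hN : IsStarNormal W) :
    ∃ κ : ℂ, ∀ z : ℂ, ‖z‖ < 1 → ψ z = κ / (c * z + d) :=
  main hdet hden hself hW hN.star_comm_self.symm

end Pool.Agent.Results.MP_9100ee_an.WeightSymbols
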